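import Mathlib

/-!
# Sharply 3-transitive twisted Moebius groups

`K` a field with an involution `σ` and a `σ`-invariant quadratic character `κ`.
The maps `v ↦ A · σ^{κ(det A)}(v)` of the projective line form a sharply 3-transitive group.
-/

namespace Q16.Sharp3

/-- Nonzero vectors of the plane. -/
abbrev Vec (K : Type*) [Field K] : Type _ := {v : K × K // v ≠ 0}

/-- Proportionality of nonzero vectors. -/
@[instance_reducible]
def rel (K : Type*) [Field K] : Setoid (Vec K) where
  r v w := v.1.1 * w.1.2 = v.1.2 * w.1.1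
  iseqv := by
    refine ⟨fun v => mul_comm _ _, ?_, ?_⟩
    · intro v w h
      linear_combination -h
    · intro v w u h1 h2
      have hw : w.1.1 ≠ 0 ∨ w.1.2 ≠ 0 := by
        by_contra hc
        push Not at hc
        exact w.2 (Prod.ext hc.1 hc.2)
      rcases hw with hw | hw
      · apply mul_left_cancel₀ hw
        linear_combination v.1.1 * h2 + u.1.1 * h1
      · apply mul_left_cancel₀ hw
        linear_combination u.1.2 * h1 + v.1.2 * h2

/-- The projective line. -/
abbrev PL (K : Type*) [Field K] : Type _ := Quotient (rel K)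

/-- A point of the projective line. -/
def pt {K : Type*} [Field K] (v : Vec K) : PL K := Quotient.mk (rel K) v

theorem pt_eq_iff {K : Type*} [Field K] (v w : Vec K) :
    pt v = pt w ↔ v.1.1 * w.1.2 = v.1.2 * w.1.1 := Quotient.eq

theorem pt_surj {K : Type*} [Field K] (x : PL K) : ∃ v : Vec K, pt v = x := by
  induction x using Quotient.inductionOn with
  | h v => exact ⟨v, rfl⟩

section Top

variable {K : Type*} [Field K] [TopologicalSpace K] [IsTopologicalRing K] [T2Space K]

omit [T2Space K] in
theorem isOpenQuotientMap_pt : IsOpenQuotientMap (pt (K := K)) := by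
  refine ⟨fun x => pt_surj x, continuous_quot_mk, ?_⟩
  intro U hU
  have hscale : ∀ c : Kˣ, Continuous fun w : Vec K =>
      (⟨((c : K) * w.1.1, (c : K) * w.1.2), by
        intro h
        have h1 := congrArg Prod.fst h
        have h2 := congrArg Prod.snd h
        simp at h1 h2
        exact w.2 (Prod.ext h1 h2)⟩ : Vec K) := by
    intro c
    apply Continuous.subtype_mk
    fun_prop
  have key : (pt (K := K)) ⁻¹' (pt '' U) = ⋃ c : Kˣ, (fun w : Vec K =>
      (⟨((c : K) * w.1.1, (c : K) * w.1.2), by
        intro h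
        have h1 := congrArg Prod.fst h
        have h2 := congrArg Prod.snd h
        simp at h1 h2
        exact w.2 (Prod.ext h1 h2)⟩ : Vec K)) ⁻¹' U := by
    ext w
    simp only [Set.mem_preimage, Set.mem_image, Set.mem_iUnion]
    constructor
    · rintro ⟨u, hu, huw⟩
      rw [pt_eq_iff] at huw
      by_cases hw : w.1.1 = 0
      · have hw2 : w.1.2 ≠ 0 := fun h => w.2 (Prod.ext hw h)
        have hu1 : u.1.1 = 0 := by
          rw [hw, mul_zero] at huw
          exact (mul_eq_zero.1 huw).resolve_right hw2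
        have hu2 : u.1.2 ≠ 0 := fun h => u.2 (Prod.ext hu1 h)
        refine ⟨Units.mk0 (u.1.2 / w.1.2) (div_ne_zero hu2 hw2), ?_⟩
        have : u = (⟨((Units.mk0 (u.1.2 / w.1.2) (div_ne_zero hu2 hw2) : Kˣ) * w.1.1,
            (Units.mk0 (u.1.2 / w.1.2) (div_ne_zero hu2 hw2) : Kˣ) * w.1.2), by
              simp [hw, hw2, hu2]⟩ : Vec K) := by
          apply Subtype.ext
          apply Prod.ext
          · simp [hw, hu1]
          · simp [hw2]
        rw [← this]
        exact hu
      · have hu1 : u.1.1 ≠ 0 := by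
          intro h
          rw [h, zero_mul] at huw
          have : u.1.2 = 0 := (mul_eq_zero.1 huw.symm).resolve_right hw
          exact u.2 (Prod.ext h this)
        refine ⟨Units.mk0 (u.1.1 / w.1.1) (div_ne_zero hu1 hw), ?_⟩
        have : u = (⟨((Units.mk0 (u.1.1 / w.1.1) (div_ne_zero hu1 hw) : Kˣ) * w.1.1,
            (Units.mk0 (u.1.1 / w.1.1) (div_ne_zero hu1 hw) : Kˣ) * w.1.2), by
              simp [hw, hu1]⟩ : Vec K) := by
          apply Subtype.ext
          apply Prod.ext
          · simp [hw]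
          · simp only [Units.val_mk0]
            field_simp
            linear_combination -huw
        rw [← this]
        exact hu
    · rintro ⟨c, hc⟩
      refine ⟨_, hc, ?_⟩
      rw [pt_eq_iff]
      simp only
      ring
  have hopen : IsOpen ((pt (K := K)) ⁻¹' (pt '' U)) := by
    rw [key]
    exact isOpen_iUnion fun c => hU.preimage (hscale c)
  exact hopen

instance instT2 : T2Space (PL K) := by
  rw [t2Space_iff_of_isOpenQuotientMap (isOpenQuotientMap_pt (K := K))]
  have : {q : Vec K × Vec K | pt q.1 = pt q.2} =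
      {q : Vec K × Vec K | q.1.1.1 * q.2.1.2 = q.1.1.2 * q.2.1.1} := by
    ext q
    exact pt_eq_iff q.1 q.2
  rw [this]
  apply isClosed_eq <;> fun_prop

theorem compact_of (O : Set K) (hO : IsCompact O) (hval : ∀ x : K, x ∈ O ∨ x⁻¹ ∈ O) :
    CompactSpace (PL K) := by
  have h0 : (0 : K) ∈ O := by
    rcases hval 0 with h | h
    · exact h
    · simpa using h
  let φ₁ : K → Vec K := fun y => ⟨(1, y), by simp [Prod.ext_iff]⟩
  let φ₂ : K → Vec K := fun x => ⟨(x, 1), by simp [Prod.ext_iff]⟩
  have c1 : Continuous φ₁ := by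
    apply Continuous.subtype_mk
    fun_prop
  have c2 : Continuous φ₂ := by
    apply Continuous.subtype_mk
    fun_prop
  have cp : Continuous (pt (K := K)) := isOpenQuotientMap_pt.continuous
  constructor
  have : (Set.univ : Set (PL K)) = (pt ∘ φ₁) '' O ∪ (pt ∘ φ₂) '' O := by
    symm
    rw [Set.eq_univ_iff_forall]
    intro x
    obtain ⟨v, rfl⟩ := pt_surj x
    by_cases h1 : v.1.1 = 0
    · right
      refine ⟨0, h0, ?_⟩
      simp only [Function.comp]
      rw [pt_eq_iff]
      simp [φ₂, h1]
    · rcases hval (v.1.2 / v.1.1) with h | h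
      · left
        refine ⟨_, h, ?_⟩
        simp only [Function.comp]
        rw [pt_eq_iff]
        simp only [φ₁]
        field_simp
      · by_cases h2 : v.1.2 = 0
        · left
          refine ⟨0, h0, ?_⟩
          simp only [Function.comp]
          rw [pt_eq_iff]
          simp [φ₁, h2]
        · right
          refine ⟨_, h, ?_⟩
          simp only [Function.comp]
          rw [pt_eq_iff]
          simp only [φ₂]
          field_simp
  rw [this]
  exact (hO.image (cp.comp c1)).union (hO.image (cp.comp c2))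

end Top

/-- A field with an involution and an invariant quadratic character. -/
structure Data (K : Type*) [Field K] where
  /-- the involution -/
  σ : K →+* K
  σσ : ∀ x, σ (σ x) = x
  /-- the character (value at `0` is irrelevant) -/
  κ : K → ZMod 2
  κ_mul : ∀ x y, x ≠ 0 → y ≠ 0 → κ (x * y) = κ x + κ y
  κ_σ : ∀ x, κ (σ x) = κ x

namespace Data

variable {K : Type*} [Field K] (D : Data K)

/-- `σ^k`. -/
def S (k : ZMod 2) : K →+* K := if k = 0 then RingHom.id K else D.σ

theorem S_zero (x : K) : D.S 0 x = x := by simp [S]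

theorem S_one (x : K) : D.S 1 x = D.σ x := by simp [S]

theorem zmod2_cases (k : ZMod 2) : k = 0 ∨ k = 1 := by
  revert k
  decide

theorem S_add (k l : ZMod 2) (x : K) : D.S (k + l) x = D.S k (D.S l x) := by
  rcases zmod2_cases k with rfl | rfl <;> rcases zmod2_cases l with rfl | rfl
  · simp [S_zero]
  · simp [S_zero, S_one]
  · simp [S_zero, S_one]
  · have : (1 + 1 : ZMod 2) = 0 := by decide
    rw [this, S_zero, S_one, S_one, D.σσ]

theorem S_S (k : ZMod 2) (x : K) : D.S k (D.S k x) = x := by
  rw [← S_add]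
  have : k + k = 0 := by
    revert k
    decide
  rw [this, S_zero]

theorem κ_S (k : ZMod 2) (x : K) : D.κ (D.S k x) = D.κ x := by
  rcases zmod2_cases k with rfl | rfl
  · rw [S_zero]
  · rw [S_one, D.κ_σ]

theorem κ_one : D.κ 1 = 0 := by
  have := D.κ_mul 1 1 one_ne_zero one_ne_zero
  rw [mul_one] at this
  exact left_eq_add.1 this

end Data

/-- Invertible matrices. -/
structure Mat (K : Type*) [Field K] where
  /-- entry -/
  a : K
  /-- entry -/
  b : K
  /-- entry -/
  c : K
  /-- entry -/
  d : K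
  h : a * d - b * c ≠ 0

variable {K : Type*} [Field K] (D : Data K)

/-- Determinant. -/
def Mat.det (A : Mat K) : K := A.a * A.d - A.b * A.c

/-- Twist of a matrix. -/
def kap (A : Mat K) : ZMod 2 := D.κ A.det

/-- The semilinear map of a matrix. -/
def T (A : Mat K) (v : Vec K) : Vec K :=
  ⟨(A.a * D.S (kap D A) v.1.1 + A.b * D.S (kap D A) v.1.2,
    A.c * D.S (kap D A) v.1.1 + A.d * D.S (kap D A) v.1.2), by
    intro h
    have h1 := congrArg Prod.fst h
    have h2 := congrArg Prod.snd h
    simp only [Prod.fst_zero, Prod.snd_zero] at h1 h2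
    have e1 : (A.a * A.d - A.b * A.c) * D.S (kap D A) v.1.1 = 0 := by
      linear_combination A.d * h1 - A.b * h2
    have e2 : (A.a * A.d - A.b * A.c) * D.S (kap D A) v.1.2 = 0 := by
      linear_combination A.a * h2 - A.c * h1
    have f1 := (mul_eq_zero.1 e1).resolve_left A.h
    have f2 := (mul_eq_zero.1 e2).resolve_left A.h
    rw [map_eq_zero] at f1 f2
    exact v.2 (Prod.ext f1 f2)⟩

theorem T_fst (A : Mat K) (v : Vec K) :
    (T D A v).1.1 = A.a * D.S (kap D A) v.1.1 + A.b * D.S (kap D A) v.1.2 := rfl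

theorem T_snd (A : Mat K) (v : Vec K) :
    (T D A v).1.2 = A.c * D.S (kap D A) v.1.1 + A.d * D.S (kap D A) v.1.2 := rfl

/-- The induced map of the projective line. -/
def Q (A : Mat K) : PL K → PL K :=
  Quotient.map (T D A) (by
    intro v w (h : v.1.1 * w.1.2 = v.1.2 * w.1.1)
    change (T D A v).1.1 * (T D A w).1.2 = (T D A v).1.2 * (T D A w).1.1
    simp only [T_fst, T_snd]
    have h' := congrArg (D.S (kap D A)) h
    rw [map_mul, map_mul] at h'
    linear_combination (A.a * A.d - A.b * A.c) * h')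

theorem Q_pt (A : Mat K) (v : Vec K) : Q D A (pt v) = pt (T D A v) := rfl

/-- The inverse of a matrix (twisted). -/
def inv (A : Mat K) : Mat K where
  a := D.S (kap D A) A.d
  b := - D.S (kap D A) A.b
  c := - D.S (kap D A) A.c
  d := D.S (kap D A) A.a
  h := by
    have : D.S (kap D A) A.d * D.S (kap D A) A.a - -D.S (kap D A) A.b * -D.S (kap D A) A.c =
        D.S (kap D A) (A.a * A.d - A.b * A.c) := by
      rw [map_sub, map_mul, map_mul]
      ring
    rw [this]
    exact (map_ne_zero _).2 A.h

theorem kap_inv (A : Mat K) : kap D (inv D A) = kap D A := by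
  have : (inv D A).det = D.S (kap D A) A.det := by
    simp only [Mat.det, inv, map_sub, map_mul]
    ring
  rw [kap, this, D.κ_S]
  rfl

theorem Q_inv_left (A : Mat K) (x : PL K) : Q D (inv D A) (Q D A x) = x := by
  obtain ⟨v, rfl⟩ := pt_surj x
  rw [Q_pt, Q_pt, pt_eq_iff]
  simp only [T_fst, T_snd, kap_inv, map_add, map_mul, D.S_S]
  simp only [inv]
  ring

theorem Q_inv_right (A : Mat K) (x : PL K) : Q D A (Q D (inv D A) x) = x := by
  obtain ⟨v, rfl⟩ := pt_surj x
  rw [Q_pt, Q_pt, pt_eq_iff]
  simp only [T_fst, T_snd, kap_inv, map_add, map_mul, D.S_S]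
  simp only [inv, map_neg, D.S_S]
  ring

/-- The permutation of the projective line. -/
def perm (A : Mat K) : Equiv.Perm (PL K) where
  toFun := Q D A
  invFun := Q D (inv D A)
  left_inv := Q_inv_left D A
  right_inv := Q_inv_right D A

theorem perm_pt (A : Mat K) (v : Vec K) : perm D A (pt v) = pt (T D A v) := rfl

/-- Product of matrices (twisted). -/
def mul (A B : Mat K) : Mat K where
  a := A.a * D.S (kap D A) B.a + A.b * D.S (kap D A) B.c
  b := A.a * D.S (kap D A) B.b + A.b * D.S (kap D A) B.d
  c := A.c * D.S (kap D A) B.a + A.d * D.S (kap D A) B.c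
  d := A.c * D.S (kap D A) B.b + A.d * D.S (kap D A) B.d
  h := by
    have : (A.a * D.S (kap D A) B.a + A.b * D.S (kap D A) B.c) *
        (A.c * D.S (kap D A) B.b + A.d * D.S (kap D A) B.d) -
        (A.a * D.S (kap D A) B.b + A.b * D.S (kap D A) B.d) *
        (A.c * D.S (kap D A) B.a + A.d * D.S (kap D A) B.c) =
        (A.a * A.d - A.b * A.c) * D.S (kap D A) (B.a * B.d - B.b * B.c) := by
      rw [map_sub, map_mul, map_mul]
      ring
    rw [this]
    exact mul_ne_zero A.h ((map_ne_zero _).2 B.h)

theorem kap_mul (A B : Mat K) : kap D (mul D A B) = kap D A + kap D B := by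
  have : (mul D A B).det = A.det * D.S (kap D A) B.det := by
    simp only [Mat.det, mul, map_sub, map_mul]
    ring
  have hA : A.det ≠ 0 := A.h
  have hB : D.S (kap D A) B.det ≠ 0 := (map_ne_zero _).2 B.h
  rw [kap, this, D.κ_mul _ _ hA hB, D.κ_S]
  rfl

theorem perm_mul (A B : Mat K) : perm D A * perm D B = perm D (mul D A B) := by
  ext x
  obtain ⟨v, rfl⟩ := pt_surj x
  rw [Equiv.Perm.mul_apply, perm_pt, perm_pt, perm_pt]
  congr 1
  apply Subtype.ext
  apply Prod.ext
  · simp only [T_fst, T_snd, kap_mul, D.S_add, map_add, map_mul]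
    simp only [mul]
    ring
  · simp only [T_fst, T_snd, kap_mul, D.S_add, map_add, map_mul]
    simp only [mul]
    ring

/-- Identity matrix. -/
def one : Mat K where
  a := 1
  b := 0
  c := 0
  d := 1
  h := by simp

theorem kap_one : kap D (one (K := K)) = 0 := by
  simp [kap, Mat.det, one, D.κ_one]

theorem perm_one : perm D (one (K := K)) = 1 := by
  ext x
  obtain ⟨v, rfl⟩ := pt_surj x
  rw [perm_pt, Equiv.Perm.one_apply, pt_eq_iff]
  simp only [T_fst, T_snd, kap_one, D.S_zero]
  simp only [one]
  ring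

theorem perm_inv (A : Mat K) : (perm D A)⁻¹ = perm D (inv D A) := by
  ext x
  rfl

/-- The twisted Moebius group. -/
def Gr : Subgroup (Equiv.Perm (PL K)) where
  carrier := Set.range (perm D)
  one_mem' := ⟨one, perm_one D⟩
  mul_mem' := by
    rintro _ _ ⟨A, rfl⟩ ⟨B, rfl⟩
    exact ⟨mul D A B, (perm_mul D A B).symm⟩
  inv_mem' := by
    rintro _ ⟨A, rfl⟩
    exact ⟨inv D A, (perm_inv D A).symm⟩

/-- element of the group -/
def gel (A : Mat K) : Gr D := ⟨perm D A, A, rfl⟩

theorem gel_smul (A : Mat K) (v : Vec K) : gel D A • pt v = pt (T D A v) := rfl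

/-- Vector constructor. -/
def vec (x y : K) (h : (x, y) ≠ (0 : K × K)) : Vec K := ⟨(x, y), h⟩

/-- `[1,0]` -/
def e₁ : Vec K := ⟨(1, 0), by simp [Prod.ext_iff]⟩
/-- `[0,1]` -/
def e₂ : Vec K := ⟨(0, 1), by simp [Prod.ext_iff]⟩
/-- `[x,1]` -/
def e₃ (x : K) : Vec K := ⟨(x, 1), by simp [Prod.ext_iff]⟩

/-- Existence: the base triple can be moved to any triple. -/
theorem exists_base (x y z : PL K) (hxy : x ≠ y) (hxz : x ≠ z) (hyz : y ≠ z) :
    ∃ g : Gr D, g • pt (e₁ (K := K)) = x ∧ g • pt (e₂ (K := K)) = y ∧ g • pt (e₃ (1 : K)) = z := by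
  obtain ⟨u, rfl⟩ := pt_surj x
  obtain ⟨v, rfl⟩ := pt_surj y
  obtain ⟨w, rfl⟩ := pt_surj z
  rw [Ne, pt_eq_iff] at hxy hxz hyz
  let α : K := w.1.1 * v.1.2 - w.1.2 * v.1.1
  let β : K := u.1.1 * w.1.2 - u.1.2 * w.1.1
  have hα : α ≠ 0 := by
    intro h
    apply hyz
    simp only [α] at h
    linear_combination -h
  have hβ : β ≠ 0 := by
    intro h
    apply hxz
    simp only [β] at h
    linear_combination h
  have hγ : u.1.1 * v.1.2 - u.1.2 * v.1.1 ≠ 0 := sub_ne_zero.2 hxy
  let A : Mat K := ⟨α * u.1.1, β * v.1.1, α * u.1.2, β * v.1.2, by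
    have : α * u.1.1 * (β * v.1.2) - β * v.1.1 * (α * u.1.2) =
        α * β * (u.1.1 * v.1.2 - u.1.2 * v.1.1) := by ring
    rw [this]
    exact mul_ne_zero (mul_ne_zero hα hβ) hγ⟩
  refine ⟨gel D A, ?_, ?_, ?_⟩
  · rw [gel_smul, pt_eq_iff]
    simp only [T_fst, T_snd, e₁, map_one, map_zero, A]
    ring
  · rw [gel_smul, pt_eq_iff]
    simp only [T_fst, T_snd, e₂, map_one, map_zero, A]
    ring
  · rw [gel_smul, pt_eq_iff]
    simp only [T_fst, T_snd, e₃, map_one, A, α, β]
    ring

/-- Uniqueness: an element fixing the base triple is trivial. -/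
theorem eq_one_of_base (g : Gr D) (h1 : g • pt (e₁ (K := K)) = pt e₁)
    (h2 : g • pt (e₂ (K := K)) = pt e₂) (h3 : g • pt (e₃ (1 : K)) = pt (e₃ 1)) : g = 1 := by
  obtain ⟨_, A, rfl⟩ := g
  change gel D A • pt e₁ = _ at h1
  change gel D A • pt e₂ = _ at h2
  change gel D A • pt (e₃ 1) = _ at h3
  rw [gel_smul, pt_eq_iff] at h1 h2 h3
  simp only [T_fst, T_snd, e₁, map_one, map_zero] at h1
  simp only [T_fst, T_snd, e₂, map_one, map_zero] at h2
  simp only [T_fst, T_snd, e₃, map_one] at h3
  have hc : A.c = 0 := by linear_combination -h1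
  have hb : A.b = 0 := by linear_combination h2
  have hd : A.a = A.d := by linear_combination h3 - hb + hc
  have ha : A.a ≠ 0 := by
    intro h
    apply A.h
    rw [h, hb]
    ring
  have hk : kap D A = 0 := by
    have : A.det = A.a * A.a := by
      simp only [Mat.det, hb, ← hd]
      ring
    rw [kap, this, D.κ_mul _ _ ha ha]
    generalize D.κ A.a = k
    revert k
    decide
  apply Subtype.ext
  change perm D A = 1
  ext x
  obtain ⟨v, rfl⟩ := pt_surj x
  rw [perm_pt, Equiv.Perm.one_apply, pt_eq_iff]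
  simp only [T_fst, T_snd, hk, D.S_zero, hb, hc, ← hd]
  ring

section Top

variable [TopologicalSpace K] [IsTopologicalRing K]

theorem continuous_T (hσ : Continuous D.σ) (A : Mat K) : Continuous (T D A) := by
  have hS : ∀ k, Continuous (D.S k) := by
    intro k
    rcases Data.zmod2_cases k with rfl | rfl
    · have : (D.S 0 : K → K) = id := funext (D.S_zero)
      rw [this]
      exact continuous_id
    · have : (D.S 1 : K → K) = D.σ := funext (D.S_one)
      rw [this]
      exact hσ
  apply Continuous.subtype_mk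
  have := hS (kap D A)
  fun_prop

theorem continuous_Q (hσ : Continuous D.σ) (A : Mat K) : Continuous (Q D A) := by
  have h : Continuous (pt ∘ T D A) :=
    (continuous_quot_mk : Continuous (pt (K := K))).comp (continuous_T D hσ A)
  exact continuous_quot_lift _ h

theorem continuous_smul (hσ : Continuous D.σ) (g : Gr D) : Continuous fun x : PL K => g • x := by
  obtain ⟨_, A, rfl⟩ := g
  exact continuous_Q D hσ A

end Top

end Q16.Sharp3
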