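import Mathlib

/-!
# Quadratic characters with prescribed values
-/

namespace Q16.Sharp3

theorem exists_character {A : Type*} [CommGroup A] (b : ℕ → A)
    (hb : ∀ S : Finset ℕ, S.Nonempty → ∀ y : A, ∏ i ∈ S, b i ≠ y * y) :
    ∃ χ : A → ZMod 2, (∀ x y, χ (x * y) = χ x + χ y) ∧ ∀ i, χ (b i) = 1 := by
  classical
  let H : AddSubgroup (Additive A) := (nsmulAddMonoidHom (α := Additive A) 2).range
  have h2 : ∀ v : Additive A ⧸ H, 2 • v = 0 := by
    intro v
    induction v using QuotientAddGroup.induction_on with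
    | H z =>
      rw [← QuotientAddGroup.mk_nsmul, QuotientAddGroup.eq_zero_iff]
      exact ⟨z, rfl⟩
  let _ : Module (ZMod 2) (Additive A ⧸ H) := AddCommGroup.zmodModule h2
  let v : ℕ → Additive A ⧸ H := fun i => ((Additive.ofMul (b i) : Additive A) : Additive A ⧸ H)
  have hv : LinearIndependent (ZMod 2) v := by
    rw [linearIndependent_iff']
    intro s g hg i hi
    by_contra hgi
    have hcase : ∀ k : ZMod 2, k ≠ 0 → k = 1 := by decide
    have hsum : ∑ i ∈ s, g i • v i = ∑ i ∈ s.filter (fun i => g i = 1), v i := by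
      rw [Finset.sum_filter]
      apply Finset.sum_congr rfl
      intro j _
      by_cases hj : g j = 1
      · rw [hj, one_smul, if_pos rfl]
      · have : g j = 0 := by
          by_contra h0
          exact hj (hcase _ h0)
        rw [this, if_neg (by decide)]
        exact zero_smul (ZMod 2) (v j)
    rw [hsum] at hg
    have hmk : ((∑ i ∈ s.filter (fun i => g i = 1), Additive.ofMul (b i) : Additive A) :
        Additive A ⧸ H) = 0 := by
      have := map_sum (QuotientAddGroup.mk' H) (fun i => Additive.ofMul (b i))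
        (s.filter (fun i => g i = 1))
      rw [← hg]
      exact this
    rw [QuotientAddGroup.eq_zero_iff] at hmk
    obtain ⟨y, hy⟩ := hmk
    apply hb (s.filter (fun i => g i = 1)) ⟨i, by simp [hi, hcase _ hgi]⟩ (Additive.toMul y)
    have h3 : ∑ i ∈ s.filter (fun i => g i = 1), Additive.ofMul (b i) = y + y := by
      rw [← hy]
      simp [two_nsmul]
    have h4 := congrArg Additive.toMul h3
    rw [toMul_sum] at h4
    exact h4
  let B := Module.Basis.span hv
  let f : Submodule.span (ZMod 2) (Set.range v) →ₗ[ZMod 2] ZMod 2 := B.constr (ZMod 2) fun _ => 1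
  obtain ⟨g, hg⟩ := LinearMap.exists_extend f
  refine ⟨fun x => g ((Additive.ofMul x : Additive A) : Additive A ⧸ H), ?_, ?_⟩
  · intro x y
    simp only
    rw [ofMul_mul, QuotientAddGroup.mk_add, map_add]
  · intro i
    have h5 : f (B i) = 1 := by simp [f]
    have h6 : ((B i : Submodule.span (ZMod 2) (Set.range v)) : Additive A ⧸ H) = v i :=
      congrArg Subtype.val (Module.Basis.span_apply hv i)
    have h7 : g ((B i : Submodule.span (ZMod 2) (Set.range v)) : Additive A ⧸ H) = f (B i) := by
      rw [← hg]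
      rfl
    rw [h6, h5] at h7
    exact h7

section PS

variable {F : Type*} [Field F]

open PowerSeries

/-- The factor. -/
noncomputable def fac (e f : F) (i : ℕ) : PowerSeries F :=
  1 + C e * X ^ (2 * i + 1) + C f * X ^ (4 * i + 2)

theorem coeff_prod_fac (e f : F) (S : Finset ℕ) (hS : S.Nonempty) :
    coeff (2 * S.min' hS + 1) (∏ i ∈ S, fac e f i) = e := by
  classical
  set m := S.min' hS with hm
  have hmS : m ∈ S := S.min'_mem hS
  rw [← Finset.mul_prod_erase S (fac e f) hmS]
  have h1 : (X : PowerSeries F) ^ (2 * m + 2) ∣ (∏ i ∈ S.erase m, fac e f i) - 1 := by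
    apply Finset.prod_induction (fac e f) (fun x => (X : PowerSeries F) ^ (2 * m + 2) ∣ x - 1)
    · intro x y hx hy
      have : x * y - 1 = x * (y - 1) + (x - 1) := by ring
      rw [this]
      exact dvd_add (hy.mul_left x) hx
    · simp
    · intro i hi
      rw [Finset.mem_erase] at hi
      have hlt : m < i := lt_of_le_of_ne (S.min'_le i hi.2) (Ne.symm hi.1)
      have e1 : (X : PowerSeries F) ^ (2 * i + 1) = X ^ (2 * m + 2) * X ^ (2 * i - 2 * m - 1) := by
        rw [← pow_add]
        congr 1
        lia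
      have e2 : (X : PowerSeries F) ^ (4 * i + 2) = X ^ (2 * m + 2) * X ^ (4 * i - 2 * m) := by
        rw [← pow_add]
        congr 1
        lia
      refine ⟨C e * X ^ (2 * i - 2 * m - 1) + C f * X ^ (4 * i - 2 * m), ?_⟩
      rw [fac, e1, e2]
      ring
  have h2 : (X : PowerSeries F) ^ (2 * m + 2) ∣
      fac e f m * (∏ i ∈ S.erase m, fac e f i) - fac e f m := by
    have : fac e f m * (∏ i ∈ S.erase m, fac e f i) - fac e f m =
      fac e f m * ((∏ i ∈ S.erase m, fac e f i) - 1) := by ring
    rw [this]
    exact h1.mul_left _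
  rw [PowerSeries.X_pow_dvd_iff] at h2
  have h3 := h2 (2 * m + 1) (by lia)
  rw [map_sub, sub_eq_zero] at h3
  rw [h3, fac]
  simp only [map_add, coeff_C_mul, coeff_X_pow, coeff_one]
  simp
  intro h
  lia

end PS

end Q16.Sharp3
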