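import Mathlib

/-!
# The Laurent series field over a finite field of characteristic two

Topological facts and the construction of a discontinuous invariant quadratic character.
-/

open Filter Topology WithZero

namespace Q16.Sharp3

section TopK

variable {F : Type*} [Field F]

open LaurentSeries Valuation MonoidWithZeroHom.ValueGroup₀

theorem mem_nhds_coeff {s : Set (LaurentSeries F)} {x : LaurentSeries F} :
    s ∈ 𝓝 x ↔ ∃ D : ℤ, {y : LaurentSeries F | ∀ n < D, y.coeff n = x.coeff n} ⊆ s := by
  constructor
  · intro hs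
    obtain ⟨γ, hU₁⟩ := Valued.mem_nhds.mp hs
    set D := -(log (embedding γ.1) - 1) with hD₀
    have hD : exp (-D) < embedding γ.1 := by
      rw [← lt_log_iff_exp_lt (by simp), hD₀]
      simp
    refine ⟨D, fun y hy => hU₁ ?_⟩
    change Valued.v.restrict (y - x) < γ.1
    rw [Valued.v.restrict_lt_iff_lt_embedding]
    apply lt_of_le_of_lt (valuation_le_iff_coeff_lt_eq_zero F |>.mpr _) hD
    intro n hn
    rw [HahnSeries.coeff_sub, sub_eq_zero]
    exact hy n hn
  · rintro ⟨D, hD⟩
    rw [Valued.mem_nhds]
    have hx : Valued.v.restrict (HahnSeries.single D (1 : F) : LaurentSeries F) ≠ 0 := by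
      rw [Ne, Valuation.restrict_eq_zero_iff]
      simp
    refine ⟨Units.mk0 _ hx, fun y hy => hD ?_⟩
    change Valued.v.restrict (y - x) < _ at hy
    simp only [Units.val_mk0] at hy
    rw [Valuation.restrict_lt_iff, valuation_single_zpow] at hy
    intro n hn
    have := (valuation_le_iff_coeff_lt_eq_zero F).1 hy.le n hn
    rw [HahnSeries.coeff_sub, sub_eq_zero] at this
    exact this

theorem isCompact_ps [Finite F] :
    IsCompact (Set.range fun a : ℕ → F => ((PowerSeries.mk a : PowerSeries F) : LaurentSeries F)) := by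
  let _ : TopologicalSpace F := ⊥
  have : DiscreteTopology F := ⟨rfl⟩
  apply isCompact_range
  rw [continuous_iff_continuousAt]
  intro a s hs
  rw [mem_nhds_coeff] at hs
  obtain ⟨D, hD⟩ := hs
  have h1 : ∀ᶠ b : ℕ → F in 𝓝 a, ∀ n ∈ Finset.range D.toNat, b n = a n := by
    rw [Filter.eventually_all_finset]
    intro n _
    have : Tendsto (fun b : ℕ → F => b n) (𝓝 a) (𝓝 (a n)) := (continuous_apply n).tendsto a
    exact this.eventually ((isOpen_discrete {a n}).mem_nhds rfl)
  rw [Filter.mem_map]
  filter_upwards [h1] with b hb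
  apply hD
  intro n hn
  rcases lt_or_ge n 0 with hneg | hpos
  · have h0 : ∀ p : PowerSeries F, ((p : PowerSeries F) : LaurentSeries F).coeff n = 0 := by
      intro p
      have hv : Valued.v ((p : PowerSeries F) : LaurentSeries F) ≤ exp (-(0 : ℤ)) := by
        have : (exp (-(0 : ℤ)) : ℤᵐ⁰) = 1 := by simp
        rw [this, val_le_one_iff_eq_coe]
        exact ⟨p, rfl⟩
      exact coeff_zero_of_lt_valuation F hv hneg
    rw [h0, h0]
  · obtain ⟨k, rfl⟩ := Int.eq_ofNat_of_zero_le hpos
    simp only [coeff_coe_powerSeries, PowerSeries.coeff_mk]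
    apply hb
    rw [Finset.mem_range]
    lia

theorem ps_val (x : LaurentSeries F) :
    x ∈ (Set.range fun a : ℕ → F => ((PowerSeries.mk a : PowerSeries F) : LaurentSeries F)) ∨
    x⁻¹ ∈ (Set.range fun a : ℕ → F => ((PowerSeries.mk a : PowerSeries F) : LaurentSeries F)) := by
  have key : ∀ y : LaurentSeries F, Valued.v y ≤ (1 : ℤᵐ⁰) →
      y ∈ (Set.range fun a : ℕ → F => ((PowerSeries.mk a : PowerSeries F) : LaurentSeries F)) := by
    intro y hy
    rw [val_le_one_iff_eq_coe] at hy
    obtain ⟨p, rfl⟩ := hy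
    refine ⟨fun n => PowerSeries.coeff n p, ?_⟩
    have : (PowerSeries.mk fun n => PowerSeries.coeff n p) = p := by
      ext n
      simp
    simp only [this]
  rcases le_total (Valued.v x) (1 : ℤᵐ⁰) with h | h
  · exact Or.inl (key x h)
  · right
    apply key
    rw [map_inv₀]
    exact inv_le_one_of_one_le₀ h

theorem t2_laurent : T2Space (LaurentSeries F) := inferInstance

end TopK

section Char2

variable {F : Type*} [Field F] [CharP F 2]

/-- Coefficientwise Frobenius. -/
noncomputable def sig (F : Type*) [Field F] [CharP F 2] : LaurentSeries F →+* LaurentSeries F where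
  toFun f := HahnSeries.map f (frobenius F 2)
  map_one' := HahnSeries.map_one ((frobenius F 2).toMonoidWithZeroHom)
  map_mul' x y := HahnSeries.map_mul (frobenius F 2 : F →ₙ+* F)
  map_zero' := HahnSeries.map_zero (frobenius F 2 : ZeroHom F F)
  map_add' x y := HahnSeries.map_add (frobenius F 2 : F →+ F)

theorem sig_coeff (x : LaurentSeries F) (n : ℤ) : (sig F x).coeff n = (x.coeff n) ^ 2 := rfl

theorem sig_single (n : ℤ) (a : F) :
    sig F (HahnSeries.single n a) = HahnSeries.single n (a ^ 2) := by
  ext m
  rw [sig_coeff]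
  by_cases h : m = n
  · subst h
    simp
  · rw [HahnSeries.coeff_single_of_ne h, HahnSeries.coeff_single_of_ne h]
    simp

theorem continuous_sig : Continuous (sig F) := by
  rw [continuous_iff_continuousAt]
  intro x s hs
  rw [mem_nhds_coeff] at hs
  obtain ⟨D, hD⟩ := hs
  rw [Filter.mem_map, mem_nhds_coeff]
  refine ⟨D, fun y hy => hD ?_⟩
  intro n hn
  rw [sig_coeff, sig_coeff, hy n hn]

theorem sig_sig (h4 : ∀ a : F, a ^ 4 = a) (x : LaurentSeries F) : sig F (sig F x) = x := by
  ext n
  rw [sig_coeff, sig_coeff, ← pow_mul]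
  exact h4 _

/-- Squares have no odd coefficients in characteristic two. -/
theorem coeff_sq_odd (y : LaurentSeries F) (k : ℤ) : (y * y).coeff (2 * k + 1) = 0 := by
  rw [HahnSeries.coeff_mul]
  apply Finset.sum_involution (fun (ij : ℤ × ℤ) _ => (ij.2, ij.1))
  · intro ij _
    simp only
    rw [mul_comm (y.coeff ij.2)]
    exact CharTwo.add_self_eq_zero _
  · intro ij hij _ h
    rw [Finset.mem_antidiagonal] at hij
    have : ij.2 = ij.1 := congrArg Prod.fst h
    lia
  · intro ij hij
    simp only [Finset.mem_antidiagonal] at hij ⊢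
    exact ⟨hij.2.1, hij.1, by rw [add_comm]; exact hij.2.2⟩
  · intro ij hij
    rfl

end Char2

end Q16.Sharp3
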