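import Mathlib
import Pool.Agent.Q16.Sharp3.Abs
import Pool.Agent.Q16.Sharp3.Conc
import Pool.Agent.Q16.Sharp3.Char

/-!
# The counterexample: twisted Moebius group over `F_4((X))`
-/

open Filter Topology

namespace Q16.Sharp3

/-- The coefficient field. -/
abbrev F4 : Type := GaloisField 2 2

/-- The local field. -/
abbrev K4 : Type := LaurentSeries F4

noncomputable instance : Fintype F4 := Fintype.ofFinite _

theorem card_F4 : Fintype.card F4 = 4 := by
  rw [← Nat.card_eq_fintype_card, GaloisField.card 2 2 (by norm_num)]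
  norm_num

theorem pow_four (a : F4) : a ^ 4 = a := by
  have := FiniteField.pow_card a
  rwa [card_F4] at this

theorem exists_omega : ∃ w : F4, w ^ 2 ≠ w := by
  classical
  obtain ⟨w, -, hw⟩ := Finset.exists_mem_notMem_of_card_lt_card
    (s := ({0, 1} : Finset F4)) (t := Finset.univ) (by
      rw [Finset.card_univ, card_F4]
      exact lt_of_le_of_lt (Finset.card_le_two) (by norm_num))
  refine ⟨w, fun h => hw ?_⟩
  have : w * (w - 1) = 0 := by
    linear_combination h
  rcases mul_eq_zero.1 this with h | h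
  · simp [h]
  · simp [sub_eq_zero.1 h]

/-- `ω`. -/
noncomputable def om : F4 := exists_omega.choose

theorem om_ne : om ^ 2 ≠ om := exists_omega.choose_spec

theorem om_ne_zero : om ≠ 0 := by
  intro h
  apply om_ne
  rw [h]
  simp

/-- `x_n`. -/
noncomputable def xs (n : ℕ) : K4 := 1 + HahnSeries.single (2 * (n : ℤ) + 1) om

theorem sig_xs (n : ℕ) : sig F4 (xs n) = 1 + HahnSeries.single (2 * (n : ℤ) + 1) (om ^ 2) := by
  rw [xs, map_add, map_one, sig_single]

theorem xs_coeff_zero (n : ℕ) : (xs n).coeff 0 = 1 := by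
  have h : (HahnSeries.single (2 * (n : ℤ) + 1) om : K4).coeff 0 = 0 :=
    HahnSeries.coeff_single_of_ne (by lia)
  rw [xs, HahnSeries.coeff_add, h]
  simp

theorem xs_ne_zero (n : ℕ) : xs n ≠ 0 := by
  intro h
  have := xs_coeff_zero n
  rw [h] at this
  simp at this

theorem norm_xs (n : ℕ) : xs n * sig F4 (xs n) =
    ((fac (om + om ^ 2) (om * om ^ 2) n : PowerSeries F4) : K4) := by
  rw [sig_xs, xs, fac]
  have h1 : (1 + HahnSeries.single (2 * (n : ℤ) + 1) om : K4) *
      (1 + HahnSeries.single (2 * (n : ℤ) + 1) (om ^ 2)) =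
      1 + HahnSeries.single (2 * (n : ℤ) + 1) (om + om ^ 2) +
        HahnSeries.single (4 * (n : ℤ) + 2) (om * om ^ 2) := by
    have h2 : (HahnSeries.single (4 * (n : ℤ) + 2) (om * om ^ 2) : K4) =
        HahnSeries.single (2 * (n : ℤ) + 1) om * HahnSeries.single (2 * (n : ℤ) + 1) (om ^ 2) := by
      rw [HahnSeries.single_mul_single]
      congr 1
      ring_nf
    rw [h2, HahnSeries.single_add]
    ring
  rw [h1]
  have h3 : ∀ (m : ℕ) (a : F4), (((PowerSeries.C a * PowerSeries.X ^ m : PowerSeries F4)) : K4) =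
      HahnSeries.single (m : ℤ) a := by
    intro m a
    rw [map_mul, HahnSeries.ofPowerSeries_C, HahnSeries.ofPowerSeries_X_pow]
    rw [HahnSeries.C_mul_eq_smul]
    ext k
    rw [HahnSeries.coeff_smul]
    by_cases hk : k = (m : ℤ)
    · subst hk
      rw [HahnSeries.coeff_single_same, HahnSeries.coeff_single_same]
      simp
    · rw [HahnSeries.coeff_single_of_ne hk, HahnSeries.coeff_single_of_ne hk]
      simp
  rw [RingHom.map_add (HahnSeries.ofPowerSeries ℤ F4),
    RingHom.map_add (HahnSeries.ofPowerSeries ℤ F4), h3, h3,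
    RingHom.map_one (HahnSeries.ofPowerSeries ℤ F4)]
  push_cast
  rfl

theorem sig_ne_zero {x : K4} (hx : x ≠ 0) : sig F4 x ≠ 0 := (map_ne_zero _).2 hx

theorem prod_ne_sq (S : Finset ℕ) (hS : S.Nonempty) (y : K4) :
    ∏ i ∈ S, (xs i * sig F4 (xs i)) ≠ y * y := by
  intro h
  have h1 : ∏ i ∈ S, (xs i * sig F4 (xs i)) =
      ((∏ i ∈ S, fac (om + om ^ 2) (om * om ^ 2) i : PowerSeries F4) : K4) := by
    rw [map_prod]
    exact Finset.prod_congr rfl fun i _ => norm_xs i
  have h2 := coeff_sq_odd y (S.min' hS : ℤ)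
  rw [← h, h1] at h2
  have h3 : (2 * ((S.min' hS : ℕ) : ℤ) + 1) = ((2 * S.min' hS + 1 : ℕ) : ℤ) := by push_cast; ring
  rw [h3, LaurentSeries.coeff_coe_powerSeries, coeff_prod_fac] at h2
  apply om_ne
  have h4 : om ^ 2 = -om := by linear_combination h2
  rw [h4]
  exact CharTwo.neg_eq om

/-- The existence of the invariant character. -/
theorem exists_kappa : ∃ κ : K4 → ZMod 2, (∀ x y, x ≠ 0 → y ≠ 0 → κ (x * y) = κ x + κ y) ∧
    (∀ x, κ (sig F4 x) = κ x) ∧ ∀ n, κ (xs n) = 1 := by
  classical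
  obtain ⟨χ, hχ, hb⟩ := exists_character
    (fun i : ℕ => Units.mk0 (xs i * sig F4 (xs i))
      (mul_ne_zero (xs_ne_zero i) (sig_ne_zero (xs_ne_zero i)))) (by
    intro S hS y hy
    apply prod_ne_sq S hS (y : K4)
    have := congrArg (Units.val) hy
    simpa using this)
  refine ⟨fun x => if h : x * sig F4 x = 0 then 0 else χ (Units.mk0 _ h), ?_, ?_, ?_⟩
  · intro x y hx hy
    have h1 : x * sig F4 x ≠ 0 := mul_ne_zero hx (sig_ne_zero hx)
    have h2 : y * sig F4 y ≠ 0 := mul_ne_zero hy (sig_ne_zero hy)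
    have h3 : (x * y) * sig F4 (x * y) ≠ 0 :=
      mul_ne_zero (mul_ne_zero hx hy) (sig_ne_zero (mul_ne_zero hx hy))
    simp only [dif_neg h1, dif_neg h2, dif_neg h3]
    rw [← hχ]
    congr 1
    apply Units.ext
    simp only [Units.val_mk0, Units.val_mul, map_mul]
    ring
  · intro x
    have : sig F4 x * sig F4 (sig F4 x) = x * sig F4 x := by
      rw [sig_sig pow_four]
      ring
    simp only [this]
  · intro n
    have h1 : xs n * sig F4 (xs n) ≠ 0 := mul_ne_zero (xs_ne_zero n) (sig_ne_zero (xs_ne_zero n))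
    simp only [dif_neg h1]
    exact hb n

/-- The data. -/
noncomputable def dat : Data K4 where
  σ := sig F4
  σσ := sig_sig pow_four
  κ := exists_kappa.choose
  κ_mul := exists_kappa.choose_spec.1
  κ_σ := exists_kappa.choose_spec.2.1

theorem dat_xs (n : ℕ) : dat.κ (xs n) = 1 := exists_kappa.choose_spec.2.2 n

theorem tendsto_xs : Tendsto xs atTop (𝓝 1) := by
  intro s hs
  rw [mem_nhds_coeff] at hs
  obtain ⟨D, hD⟩ := hs
  rw [Filter.mem_map, Filter.mem_atTop_sets]
  refine ⟨D.toNat, fun n hn => hD ?_⟩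
  intro k hk
  have h : (HahnSeries.single (2 * (n : ℤ) + 1) om : K4).coeff k = 0 := by
    apply HahnSeries.coeff_single_of_ne
    lia
  rw [xs, HahnSeries.coeff_add, h, add_zero]

/-- The diagonal matrices. -/
noncomputable def mat (n : ℕ) : Mat K4 := ⟨xs n, 0, 0, 1, by simpa using xs_ne_zero n⟩

theorem kap_mat (n : ℕ) : kap dat (mat n) = 1 := by
  have : (mat n).det = xs n := by simp [Mat.det, mat]
  rw [kap, this, dat_xs]

/-- The moved point. -/
noncomputable def cpt : K4 := HahnSeries.single 0 om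

theorem sig_cpt : sig F4 cpt ≠ cpt := by
  intro h
  rw [cpt, sig_single] at h
  exact om_ne (HahnSeries.single_injective _ h)

theorem cpt_ne_zero : cpt ≠ 0 := by
  rw [cpt]
  exact HahnSeries.single_ne_zero om_ne_zero

theorem smul_e₁ (n : ℕ) : gel dat (mat n) • pt (e₁ (K := K4)) = pt e₁ := by
  rw [gel_smul, pt_eq_iff]
  simp only [T_fst, T_snd, e₁, map_one, map_zero, mat]
  ring

theorem smul_e₂ (n : ℕ) : gel dat (mat n) • pt (e₂ (K := K4)) = pt e₂ := by
  rw [gel_smul, pt_eq_iff]
  simp only [T_fst, T_snd, e₂, map_one, map_zero, mat]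
  ring

theorem smul_e₃ (n : ℕ) (c : K4) : gel dat (mat n) • pt (e₃ c) = pt (e₃ (xs n * sig F4 c)) := by
  rw [gel_smul, pt_eq_iff]
  simp only [T_fst, T_snd, e₃, map_one, kap_mat, dat.S_one]
  simp only [mat, dat]
  ring

theorem continuous_e₃ : Continuous fun c : K4 => pt (e₃ c) := by
  have h : Continuous (e₃ (K := K4)) := by
    apply Continuous.subtype_mk
    fun_prop
  exact isOpenQuotientMap_pt.continuous.comp h

end Q16.Sharp3
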